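import Pool.Agent.Results.MP_6c02f2_nt.PowerSaving
import Pool.Agent.V1172.PW.Eng
import Pool.Agent.Y854.GM.Win

/-!
# Primes not dividing the central binomial coefficient: all integers in shrinking residue classes and in windows

Let `f(n)` be the sum of `1 / p` over the primes `p < n` that do not divide the central binomial coefficient. For every `ε > 0`
there is a `ρ < 1` such that `f(n) ≤ ε log log n` for ALL integers `n` of the following sets.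

(1) Let `l` be a prime number and `s > 0`. For all `l`-adic integers `a` outside of a set of Hausdorff dimension at most `ρ / s`
and all large `T`: all `n ≤ T` with `|n - a|_l ≤ T^{-s}`, that is, in the residue class of `a` modulo the least `l^f ≥ T^s`.

(2) Let `1 ≤ u_0, u_1, …` be reals with `∑ u_m^{-t} < ∞` for all `t > τ`, `θ < 1`. For all `a > 0` outside of a set of Hausdorff
dimension at most `(ρ + τ) / (1 - θ)` and all large `m`: all `n` with `|n - a u_m| ≤ u_m^θ`.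

The input is the starting theorem `PowerSaving`.
-/

set_option autoImplicit false

namespace Pool.Agent.Results.MP_6c02f2_nt.IntegersNearPlaces

open Finset Classical Filter

/-- the sum of `1 / p` over the primes `p < n` that do not divide the central binomial coefficient -/
noncomputable def fsum (n : ℕ) : ℝ :=
  ∑ p ∈ (Finset.range n).filter (fun p => p.Prime ∧ ¬ p ∣ Nat.centralBinom n), (1 : ℝ) / (p : ℝ)

/-- **Theorem.** For every `ε > 0` there is a `ρ < 1` such that `f(n) ≤ ε log log n` (1) for all `a ∈ ℤ_l` outside of a set of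
dimension at most `ρ / s` and all large `T`, for ALL `1 ≤ n ≤ T` with `|n - a|_l ≤ T^{-s}`; (2) for all `a > 0` outside of a set
of dimension at most `(ρ + τ) / (1 - θ)` and all large `m`, for ALL `n ≥ 1` with `|n - a u_m| ≤ u_m^θ`. -/
theorem result (ε : ℝ) (hε : 0 < ε) : ∃ ρ : ℝ, 0 ≤ ρ ∧ ρ < 1 ∧
    (∀ (l : ℕ) [Fact l.Prime] (s : ℝ), 0 < s → ∃ E : Set ℤ_[l], dimH E ≤ ENNReal.ofReal (ρ / s) ∧
      ∀ a : ℤ_[l], a ∉ E → ∃ T₀ : ℝ, ∀ T : ℝ, T₀ ≤ T → ∀ n : ℕ, 1 ≤ n → (n : ℝ) ≤ T →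
        ‖(n : ℤ_[l]) - a‖ ≤ T ^ (-s) → fsum n ≤ ε * Real.log (Real.log n)) ∧
    (∀ (u : ℕ → ℝ) (τ θ : ℝ), (∀ m, 1 ≤ u m) → 0 ≤ τ → (∀ t : ℝ, τ < t → Summable fun m : ℕ => u m ^ (-t)) → θ < 1 →
      ∃ Z : Set ℝ, dimH Z ≤ ENNReal.ofReal ((ρ + τ) / (1 - θ)) ∧ ∀ a : ℝ, 0 < a → a ∉ Z →
        ∃ m₀ : ℕ, ∀ m : ℕ, m₀ ≤ m → ∀ n : ℕ, 1 ≤ n → |(n : ℝ) - a * u m| ≤ u m ^ θ →
          fsum n ≤ ε * Real.log (Real.log n)) := by
  obtain ⟨c, hc, N₀, hN⟩ := PowerSaving.result ε hε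
  have hm : 0 < min c 1 := lt_min hc one_pos
  have hm1 : min c 1 ≤ 1 := min_le_right _ _
  obtain ⟨ρ, hρ⟩ : ∃ ρ : ℝ, ρ = 1 - min c 1 := ⟨_, rfl⟩
  have hρ0 : 0 ≤ ρ := by linarith
  obtain ⟨B, hB⟩ : ∃ B : Set ℕ, B = {n : ℕ | 1 ≤ n ∧ ε * Real.log (Real.log n) < fsum n} := ⟨_, rfl⟩
  have hfin : ∀ X : ℝ, {t : ℕ | t ∈ B ∧ (t : ℝ) ≤ X}.Finite := fun X =>
    (Set.finite_Icc 0 ⌊X⌋₊).subset fun t ht => ⟨Nat.zero_le _, Nat.le_floor ht.2⟩
  have hcount : ∀ X : ℝ, 1 ≤ X → ({t : ℕ | t ∈ B ∧ (t : ℝ) ≤ X}.ncard : ℝ) ≤ ((N₀ : ℝ) + 1) * X ^ ρ := by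
    intro X hX
    have hXρ : 1 ≤ X ^ ρ := Real.one_le_rpow hX hρ0
    have hN0 : (0 : ℝ) ≤ N₀ := Nat.cast_nonneg _
    have hsub : {t : ℕ | t ∈ B ∧ (t : ℝ) ≤ X} ⊆ (((Finset.Icc 1 ⌊X⌋₊).filter
        (fun n : ℕ => ε * Real.log (Real.log n) < fsum n) : Finset ℕ) : Set ℕ) := by
      rintro t ⟨ht, htX⟩
      rw [hB] at ht
      rw [Finset.mem_coe, Finset.mem_filter, Finset.mem_Icc]
      exact ⟨⟨ht.1, Nat.le_floor htX⟩, ht.2⟩
    have h2 := Set.ncard_le_ncard hsub (Finset.finite_toSet _)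
    rw [Set.ncard_coe_finset] at h2
    have h2' : ({t : ℕ | t ∈ B ∧ (t : ℝ) ≤ X}.ncard : ℝ) ≤
        (((Finset.Icc 1 ⌊X⌋₊).filter (fun n : ℕ => ε * Real.log (Real.log n) < fsum n)).card : ℝ) := by
      exact_mod_cast h2
    by_cases hX0 : N₀ ≤ ⌊X⌋₊
    · have h3 := hN ⌊X⌋₊ hX0
      have h1 : 1 ≤ ⌊X⌋₊ := Nat.le_floor (by exact_mod_cast hX)
      have h1' : (1 : ℝ) ≤ ((⌊X⌋₊ : ℕ) : ℝ) := by exact_mod_cast h1
      have h4 : ((⌊X⌋₊ : ℕ) : ℝ) ^ (1 - c) ≤ X ^ ρ :=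
        (Real.rpow_le_rpow_of_exponent_le h1' (by rw [hρ]; linarith [min_le_left c 1])).trans
          (Real.rpow_le_rpow (Nat.cast_nonneg _) (Nat.floor_le (by linarith)) hρ0)
      have h5 : (((Finset.Icc 1 ⌊X⌋₊).filter (fun n : ℕ => ε * Real.log (Real.log n) < fsum n)).card : ℝ) ≤
          ((⌊X⌋₊ : ℕ) : ℝ) ^ (1 - c) := by
        refine le_trans (le_of_eq ?_) h3
        unfold fsum
        congr!
      calc ({t : ℕ | t ∈ B ∧ (t : ℝ) ≤ X}.ncard : ℝ) ≤ X ^ ρ := h2'.trans (h5.trans h4)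
        _ ≤ ((N₀ : ℝ) + 1) * X ^ ρ := le_mul_of_one_le_left (by linarith) (by linarith)
    · have h3 : (((Finset.Icc 1 ⌊X⌋₊).filter (fun n : ℕ => ε * Real.log (Real.log n) < fsum n)).card : ℝ) ≤ N₀ := by
        have h4 := Finset.card_filter_le (Finset.Icc 1 ⌊X⌋₊) (fun n : ℕ => ε * Real.log (Real.log n) < fsum n)
        rw [Nat.card_Icc] at h4
        have h5 : ((Finset.Icc 1 ⌊X⌋₊).filter (fun n : ℕ => ε * Real.log (Real.log n) < fsum n)).card ≤ N₀ := by omega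
        exact_mod_cast h5
      calc ({t : ℕ | t ∈ B ∧ (t : ℝ) ≤ X}.ncard : ℝ) ≤ N₀ := h2'.trans h3
        _ ≤ ((N₀ : ℝ) + 1) * X ^ ρ := by nlinarith
  refine ⟨ρ, hρ0, by linarith, ?_, ?_⟩
  · intro l _ s hs
    obtain ⟨E, h1, h2⟩ := Pool.Agent.V1172.PW.nats l (ι := Unit) (fun _ => B) hρ0 (fun _ => ⟨_, hcount⟩) hs
    refine ⟨E, h1, fun a ha => ?_⟩
    obtain ⟨T₀, hT⟩ := h2 a ha ()
    refine ⟨T₀, fun T hT1 x hx hxT hxa => ?_⟩
    by_contra hcon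
    refine hT T hT1 x hxT hxa ?_
    rw [hB]
    exact ⟨hx, not_le.1 hcon⟩
  · intro u τ θ hu hτ hgrow hθ
    obtain ⟨Z, h1, h2⟩ := Pool.Agent.Y854.GM.windows B (fun n : ℕ => (n : ℝ)) hu hτ hgrow hρ0 hθ
      (fun ε hε => ⟨(N₀ : ℝ) + 1, fun X hX => ⟨hfin X, (hcount X hX).trans (mul_le_mul_of_nonneg_left
        (Real.rpow_le_rpow_of_exponent_le hX (by linarith)) (by positivity))⟩⟩)
    refine ⟨Z, h1, fun a ha haZ => ?_⟩
    obtain ⟨m₀, hm₀⟩ := h2 a ha haZ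
    refine ⟨m₀, fun m hm x hx hxm => ?_⟩
    by_contra hcon
    refine absurd hxm (not_le.2 (hm₀ m hm x ?_))
    rw [hB]
    exact ⟨hx, not_le.1 hcon⟩

end Pool.Agent.Results.MP_6c02f2_nt.IntegersNearPlaces
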